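import Pool.Agent.H240.LF.Def

/-!
# Integrals over compact subsets of the covering (LF-3)
-/

set_option autoImplicit false

open Set Filter Topology MeasureTheory

namespace Pool.Agent.H909.LF

variable {M : Type} [MetricSpace M] [MeasurableSpace M] [BorelSpace M]

/-- one piece on which `pr` is injective -/
lemma piece_le {Ω : Set ℂ} {pr : ℂ → M} {E : ℝ} (hpr : ContinuousOn pr Ω) {Φ : ℂ → ℝ} {μ : Measure M}
    (hA : ∀ B : Set ℂ, MeasurableSet B → B ⊆ Ω → InjOn pr B →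
      μ (pr '' B) = ∫⁻ z in B, ENNReal.ofReal (Real.exp (2 * Φ z)))
    {s : Set ℂ} (hs : MeasurableSet s) (hsΩ : s ⊆ Ω) (hinj : InjOn pr s) (hΦ : ∀ z ∈ s, |Φ z| ≤ E)
    {F : M → ℝ} (hF : Continuous F) :
    ∫⁻ z in s, ENNReal.ofReal (F (pr z)) ≤
      ENNReal.ofReal (Real.exp (2 * E)) * ∫⁻ x, ENNReal.ofReal (F x) ∂μ := by
  have hprs : ContinuousOn pr s := hpr.mono hsΩ
  have hae : AEMeasurable pr (volume.restrict s) := hprs.aemeasurable hs
  have hν : Measure.map pr (volume.restrict s) ≤ ENNReal.ofReal (Real.exp (2 * E)) • μ := by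
    rw [Measure.le_iff]
    intro S hS
    rw [Measure.map_apply_of_aemeasurable hae hS, Measure.restrict_apply' hs, Measure.smul_apply,
      smul_eq_mul]
    have hAeq : pr ⁻¹' S ∩ s = Subtype.val '' ((s.domRestrict pr) ⁻¹' S) := by
      ext z
      constructor
      · rintro ⟨h1, h2⟩
        exact ⟨⟨z, h2⟩, h1, rfl⟩
      · rintro ⟨⟨w, hw⟩, h1, rfl⟩
        exact ⟨h1, hw⟩
    have hAm : MeasurableSet (pr ⁻¹' S ∩ s) := by
      rw [hAeq]
      exact hs.subtype_image (hprs.domRestrict.measurable hS)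
    have hAs : pr ⁻¹' S ∩ s ⊆ s := inter_subset_right
    have h1 := hA _ hAm (hAs.trans hsΩ) (hinj.mono hAs)
    have h2 : volume (pr ⁻¹' S ∩ s) ≤
        ∫⁻ z in pr ⁻¹' S ∩ s, ENNReal.ofReal (Real.exp (2 * E)) * ENNReal.ofReal (Real.exp (2 * Φ z)) := by
      rw [← setLIntegral_one]
      refine setLIntegral_mono' hAm (fun z hz => ?_)
      rw [← ENNReal.ofReal_mul (Real.exp_pos _).le, ← Real.exp_add]
      have h3 := abs_le.mp (hΦ z (hAs hz))
      have h4 : (1 : ℝ) ≤ Real.exp (2 * E + 2 * Φ z) := by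
        rw [Real.one_le_exp_iff]
        linarith [h3.1]
      rw [← ENNReal.ofReal_one]
      exact ENNReal.ofReal_le_ofReal h4
    rw [lintegral_const_mul' _ _ ENNReal.ofReal_ne_top, ← h1] at h2
    refine h2.trans ?_
    refine mul_le_mul_right (measure_mono ?_) _
    rintro _ ⟨z, hz, rfl⟩
    exact hz.1
  have hFm : Measurable (fun x => ENNReal.ofReal (F x)) := hF.measurable.ennreal_ofReal
  calc ∫⁻ z in s, ENNReal.ofReal (F (pr z))
      = ∫⁻ x, ENNReal.ofReal (F x) ∂(Measure.map pr (volume.restrict s)) :=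
        (lintegral_map' hFm.aemeasurable hae).symm
    _ ≤ ∫⁻ x, ENNReal.ofReal (F x) ∂(ENNReal.ofReal (Real.exp (2 * E)) • μ) := lintegral_mono' hν le_rfl
    _ = ENNReal.ofReal (Real.exp (2 * E)) * ∫⁻ x, ENNReal.ofReal (F x) ∂μ := by
        rw [lintegral_smul_measure, smul_eq_mul]

theorem cov [CompactSpace M] (Ω : Set ℂ) (pr : ℂ → M) (K : Set ℂ) (E : ℝ) (_hΩ : IsOpen Ω) (hpr : ContinuousOn pr Ω)
    (hloc : ∀ z ∈ Ω, ∃ r : ℝ, 0 < r ∧ Metric.ball z r ⊆ Ω ∧ InjOn pr (Metric.ball z r))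
    (hK : IsCompact K) (hKΩ : K ⊆ Ω) :
    ∃ C : ℝ, 0 < C ∧ ∀ (Φ : ℂ → ℝ) (μ : Measure M), ContinuousOn Φ Ω → (∀ z ∈ K, |Φ z| ≤ E) →
      (∀ B : Set ℂ, MeasurableSet B → B ⊆ Ω → InjOn pr B →
        μ (pr '' B) = ∫⁻ z in B, ENNReal.ofReal (Real.exp (2 * Φ z))) →
      IsFiniteMeasure μ → ∀ F : M → ℝ, (∀ x, 0 ≤ F x) → Continuous F →
      ∫ z in K, F (pr z) ≤ C * ∫ x, F x ∂μ := by
  choose! r hr0 hrΩ hinj using hloc
  obtain ⟨t, htK, htc⟩ := hK.elim_nhds_subcover (fun z => Metric.ball z (r z))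
    (fun z hz => Metric.ball_mem_nhds z (hr0 z (hKΩ hz)))
  refine ⟨t.card * Real.exp (2 * E) + 1, by positivity, ?_⟩
  intro Φ μ _hΦc hΦ hA hμ F hF0 hF
  have hKm : MeasurableSet K := hK.measurableSet
  have hFi : Integrable F μ := hF.integrable_of_hasCompactSupport (HasCompactSupport.of_compactSpace F)
  have hFK : IntegrableOn (fun z => F (pr z)) K :=
    (hF.comp_continuousOn (hpr.mono hKΩ)).integrableOn_compact hK
  have hI0 : 0 ≤ ∫ x, F x ∂μ := integral_nonneg hF0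
  have h1 : ENNReal.ofReal (∫ x, F x ∂μ) = ∫⁻ x, ENNReal.ofReal (F x) ∂μ :=
    ofReal_integral_eq_lintegral_ofReal hFi (Eventually.of_forall hF0)
  have h2 : ENNReal.ofReal (∫ z in K, F (pr z)) = ∫⁻ z in K, ENNReal.ofReal (F (pr z)) :=
    ofReal_integral_eq_lintegral_ofReal hFK (Eventually.of_forall (fun z => hF0 (pr z)))
  have hpiece : ∀ i : t, ∫⁻ z in K ∩ Metric.ball (i : ℂ) (r i), ENNReal.ofReal (F (pr z)) ≤
      ENNReal.ofReal (Real.exp (2 * E)) * ∫⁻ x, ENNReal.ofReal (F x) ∂μ := by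
    intro i
    have hiΩ : (i : ℂ) ∈ Ω := hKΩ (htK i i.2)
    exact piece_le hpr hA (hKm.inter Metric.isOpen_ball.measurableSet)
      (inter_subset_left.trans hKΩ) ((hinj i hiΩ).mono inter_subset_right)
      (fun z hz => hΦ z hz.1) hF
  have h3 : ∫⁻ z in K, ENNReal.ofReal (F (pr z)) ≤
      (t.card : ENNReal) * (ENNReal.ofReal (Real.exp (2 * E)) * ∫⁻ x, ENNReal.ofReal (F x) ∂μ) := by
    have hsub : K ⊆ ⋃ i : t, K ∩ Metric.ball (i : ℂ) (r i) := by
      intro z hz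
      have h4 := htc hz
      rw [mem_iUnion₂] at h4
      obtain ⟨i, hi, hzi⟩ := h4
      rw [mem_iUnion]
      exact ⟨⟨i, hi⟩, hz, hzi⟩
    refine (lintegral_mono_set hsub).trans ?_
    refine (lintegral_iUnion_le _ _).trans ?_
    refine (ENNReal.tsum_le_tsum hpiece).trans (le_of_eq ?_)
    rw [tsum_fintype, Finset.sum_const, Finset.card_univ, Fintype.card_coe, nsmul_eq_mul]
  rw [← h2, ← h1, ← ENNReal.ofReal_natCast, ← ENNReal.ofReal_mul (Real.exp_pos _).le,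
    ← ENNReal.ofReal_mul (Nat.cast_nonneg _)] at h3
  have h5 : 0 ≤ (t.card : ℝ) * (Real.exp (2 * E) * ∫ x, F x ∂μ) := by positivity
  rw [ENNReal.ofReal_le_ofReal_iff h5] at h3
  have h6 : ((t.card : ℝ) * Real.exp (2 * E) + 1) * ∫ x, F x ∂μ =
      (t.card : ℝ) * (Real.exp (2 * E) * ∫ x, F x ∂μ) + ∫ x, F x ∂μ := by ring
  rw [h6]
  linarith

theorem stCov : Pool.Agent.H240.LF.StCov := by
  intro M _ _ _ _ Ω pr K E hΩ hpr hloc hK hKΩ
  obtain ⟨C, hC, h⟩ := cov Ω pr K E hΩ hpr hloc hK hKΩ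
  exact ⟨C, hC, fun Φ μ h1 h2 h3 h4 F h5 h6 => h Φ μ h1 h2 h3 h4 F h5 h6⟩

end Pool.Agent.H909.LF
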